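import Pool.Agent.Q79.TreeShift

/-!
# The entropies of hom Markov tree-shifts are not dense in the intermediate interval

For every `d ≥ 2` the interval `((d-1)/d log 2, (d-1) log 2)` contains the non-empty open interval
`((1 - 26/(25 d²)) log 2, (1 - 1/d²) log 2)`, in which there is no entropy of a hom Markov
tree-shift on the `d`-tree.
-/

set_option autoImplicit false

open Filter Topology Set

namespace Pool.Agent.Results.MP_256cd6_an.EntropyGap

/-- The nodes of the `d`-tree are the words over `Fin d`; the children of `g` are the words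
`g ++ [i]`. The hom Markov tree-shift of `M`: the labelings `t` of the nodes by `Fin k` with
`M (t g) (t (g i)) = 1` for every node `g` and every `i`. -/
def treeShift (d : ℕ) {k : ℕ} (M : Matrix (Fin k) (Fin k) ℕ) : Set (List (Fin d) → Fin k) :=
  {t | ∀ (g : List (Fin d)) (i : Fin d), M (t g) (t (g ++ [i])) = 1}

/-- The set of words of length at most `n`. -/
def delta (d n : ℕ) : Set (List (Fin d)) := {g | g.length ≤ n}

/-- The number of distinct restrictions of elements of the tree-shift to `delta d n`. -/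
noncomputable def patternCount (d : ℕ) {k : ℕ} (M : Matrix (Fin k) (Fin k) ℕ) (n : ℕ) : ℕ :=
  ((fun (t : List (Fin d) → Fin k) (g : delta d n) => t g) '' treeShift d M).ncard

/-- `h` is the entropy of the tree-shift of `M`: the limit of `log p(n) / |Δ_n|`. -/
def IsEntropy (d : ℕ) {k : ℕ} (M : Matrix (Fin k) (Fin k) ℕ) (h : ℝ) : Prop :=
  Tendsto (fun n : ℕ => Real.log (patternCount d M n) / ((delta d n).ncard : ℝ)) atTop (𝓝 h)

/-- The entries of `M` are `0` and `1`. -/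
def Binary {k : ℕ} (M : Matrix (Fin k) (Fin k) ℕ) : Prop := ∀ i j, M i j = 0 ∨ M i j = 1

/-- Irreducible matrices. -/
def Irred {k : ℕ} (M : Matrix (Fin k) (Fin k) ℕ) : Prop := ∀ i j, ∃ m : ℕ, 1 ≤ m ∧ 0 < (M ^ m) i j

/-- The set of entropies of the non-empty hom Markov tree-shifts on the `d`-tree. -/
def entropies (d : ℕ) : Set ℝ :=
  {h | ∃ (k : ℕ) (M : Matrix (Fin k) (Fin k) ℕ), Binary M ∧ (treeShift d M).Nonempty ∧
    IsEntropy d M h}

/-- The subset coming from irreducible matrices. -/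
def entropiesIrr (d : ℕ) : Set ℝ :=
  {h | ∃ (k : ℕ) (M : Matrix (Fin k) (Fin k) ℕ), Binary M ∧ Irred M ∧ (treeShift d M).Nonempty ∧
    IsEntropy d M h}

/-- For every `d ≥ 2`: an explicit open subinterval of `I_d = ((d-1)/d log 2, (d-1) log 2)` contains
no entropy, so neither the set of all entropies nor that of irreducible matrices is dense in `I_d`. -/
theorem result (d : ℕ) (hd : 2 ≤ d) :
    ((d - 1 : ℝ) / d * Real.log 2 < (1 - 26 / 25 / (d : ℝ) ^ 2) * Real.log 2 ∧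
      (1 - 26 / 25 / (d : ℝ) ^ 2) * Real.log 2 < (1 - 1 / (d : ℝ) ^ 2) * Real.log 2 ∧
      (1 - 1 / (d : ℝ) ^ 2) * Real.log 2 < (d - 1 : ℝ) * Real.log 2) ∧
    entropies d ∩ Ioo ((1 - 26 / 25 / (d : ℝ) ^ 2) * Real.log 2)
      ((1 - 1 / (d : ℝ) ^ 2) * Real.log 2) = ∅ ∧
    ¬ Ioo ((d - 1 : ℝ) / d * Real.log 2) ((d - 1 : ℝ) * Real.log 2) ⊆ closure (entropies d) ∧
    ¬ Ioo ((d - 1 : ℝ) / d * Real.log 2) ((d - 1 : ℝ) * Real.log 2) ⊆ closure (entropiesIrr d) := by
  have hd' : (2 : ℝ) ≤ d := by exact_mod_cast hd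
  have hlog : 0 < Real.log 2 := Real.log_pos (by norm_num)
  have h1 : (d - 1 : ℝ) / d * Real.log 2 < (1 - 26 / 25 / (d : ℝ) ^ 2) * Real.log 2 := by
    apply mul_lt_mul_of_pos_right _ hlog
    have h2 : (d - 1 : ℝ) / d = 1 - 1 / d := by field_simp
    have h3 : (26 : ℝ) / 25 / (d : ℝ) ^ 2 < 1 / d := by
      rw [div_lt_div_iff₀ (by positivity) (by positivity)]
      nlinarith
    rw [h2]
    linarith
  have h2 : (1 - 26 / 25 / (d : ℝ) ^ 2) * Real.log 2 < (1 - 1 / (d : ℝ) ^ 2) * Real.log 2 := by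
    apply mul_lt_mul_of_pos_right _ hlog
    have : 1 / (d : ℝ) ^ 2 < 26 / 25 / (d : ℝ) ^ 2 := by gcongr; norm_num
    linarith
  have h3 : (1 - 1 / (d : ℝ) ^ 2) * Real.log 2 < (d - 1 : ℝ) * Real.log 2 := by
    apply mul_lt_mul_of_pos_right _ hlog
    have : 0 < 1 / (d : ℝ) ^ 2 := by positivity
    linarith
  have hempty : entropies d ∩ Ioo ((1 - 26 / 25 / (d : ℝ) ^ 2) * Real.log 2)
      ((1 - 1 / (d : ℝ) ^ 2) * Real.log 2) = ∅ := by
    rw [Set.eq_empty_iff_forall_notMem]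
    rintro h ⟨⟨k, M, _, hne, hent⟩, ha, hb⟩
    rcases Pool.Agent.Q79.TreeGap.entropy_gap (M := M) hd hne hent with h4 | h4
    · exact lt_asymm h4 ha
    · exact absurd hb (not_lt.2 h4)
  have hnot : ∀ A : Set ℝ, A ⊆ entropies d →
      ¬ Ioo ((d - 1 : ℝ) / d * Real.log 2) ((d - 1 : ℝ) * Real.log 2) ⊆ closure A := by
    intro A hA hsub
    obtain ⟨x, hx1, hx2⟩ := exists_between h2
    have hx : x ∈ closure A := hsub ⟨h1.trans hx1, hx2.trans h3⟩
    rw [mem_closure_iff] at hx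
    obtain ⟨y, hy1, hy2⟩ := hx _ isOpen_Ioo ⟨hx1, hx2⟩
    have : y ∈ entropies d ∩ Ioo ((1 - 26 / 25 / (d : ℝ) ^ 2) * Real.log 2)
        ((1 - 1 / (d : ℝ) ^ 2) * Real.log 2) := ⟨hA hy2, hy1⟩
    rw [hempty] at this
    exact this
  refine ⟨⟨h1, h2, h3⟩, hempty, hnot _ le_rfl, hnot _ ?_⟩
  rintro h ⟨k, M, hM, _, hne, hent⟩
  exact ⟨k, M, hM, hne, hent⟩

end Pool.Agent.Results.MP_256cd6_an.EntropyGap
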